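import Pool.Agent.H958.RO.Stm

/-!
# Project RO (helper958): S_STEP (helper397)
-/

set_option autoImplicit false

namespace Pool.Agent.H397.RO.Step

open Finset
open scoped Classical
open Pool.Agent.H958.RO (Rev S_STEP)

noncomputable section

/-- greedy colouring -/
theorem greedy {α : Type} [Fintype α] (R : α → α → Prop) (d : ℕ) (hs : ∀ a b, R a b → R b a)
    (hi : ∀ a, ¬ R a a) (hd : ∀ a, (univ.filter (fun b => R a b)).card ≤ d) :
    ∃ χ : α → Fin (d + 1), ∀ a b, R a b → χ a ≠ χ b := by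
  have key : ∀ S : Finset α, ∃ χ : α → Fin (d + 1), ∀ a ∈ S, ∀ b ∈ S, R a b → χ a ≠ χ b := by
    intro S
    induction S using Finset.induction_on with
    | empty => exact ⟨fun _ => 0, fun a ha => absurd ha (Finset.notMem_empty a)⟩
    | insert a S ha ih =>
      obtain ⟨χ, hχ⟩ := ih
      have hcard : ((univ.filter (fun b => R a b)).image χ).card < Fintype.card (Fin (d + 1)) := by
        rw [Fintype.card_fin]
        exact Nat.lt_succ_of_le (card_image_le.trans (hd a))
      obtain ⟨c, hc⟩ : ∃ c : Fin (d + 1), c ∉ (univ.filter (fun b => R a b)).image χ := by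
        by_contra hne
        push Not at hne
        have : (univ.filter (fun b => R a b)).image χ = univ := Finset.eq_univ_of_forall hne
        rw [this, Finset.card_univ] at hcard
        exact lt_irrefl _ hcard
      have hc' : ∀ b, R a b → χ b ≠ c := by
        intro b hb hbc
        exact hc (mem_image.2 ⟨b, mem_filter.2 ⟨mem_univ b, hb⟩, hbc⟩)
      refine ⟨Function.update χ a c, ?_⟩
      intro b hb b' hb' hR
      rcases mem_insert.1 hb with rfl | hb1
      · rcases mem_insert.1 hb' with rfl | hb2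
        · exact absurd hR (hi _)
        · have hne : b' ≠ b := fun h => ha (h ▸ hb2)
          rw [Function.update_self, Function.update_of_ne hne]
          exact (hc' b' hR).symm
      · rcases mem_insert.1 hb' with rfl | hb2
        · have hne : b ≠ b' := fun h => ha (h ▸ hb1)
          rw [Function.update_self, Function.update_of_ne hne]
          exact hc' b (hs _ _ hR)
        · have hne : b ≠ a := fun h => ha (h ▸ hb1)
          have hne' : b' ≠ a := fun h => ha (h ▸ hb2)
          rw [Function.update_of_ne hne, Function.update_of_ne hne']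
          exact hχ b hb1 b' hb2 hR
  obtain ⟨χ, hχ⟩ := key univ
  exact ⟨χ, fun a b h => hχ a (mem_univ a) b (mem_univ b) h⟩

variable {α : Type} [Fintype α]

/-- the weights -/
def sg (Z : α → Prop) {d : ℕ} (χ : α → Fin d) (e : α → ℕ) (N : ℕ) (s : Fin 2) (a : Fin d)
    (u : α) : ℕ :=
  if Z u then (if χ u = a then (if s = 0 then 1 + e u else 1 + (N - 1 - e u)) else N + 1) else 0

/-- the minimum of the weights over the up-set -/
def mf (le : α → α → Prop) (hr : ∀ x, le x x) (σ : α → ℕ) (z : α) : ℕ :=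
  (univ.filter (fun u => le z u)).inf' ⟨z, mem_filter.2 ⟨mem_univ z, hr z⟩⟩ σ

theorem mf_le (le : α → α → Prop) (hr : ∀ x, le x x) (σ : α → ℕ) (z u : α) (h : le z u) :
    mf le hr σ z ≤ σ u :=
  Finset.inf'_le σ (mem_filter.2 ⟨mem_univ u, h⟩)

theorem lt_mf (le : α → α → Prop) (hr : ∀ x, le x x) (σ : α → ℕ) (z : α) (m : ℕ)
    (h : ∀ u, le z u → m < σ u) : m < mf le hr σ z := by
  unfold mf
  rw [Finset.lt_inf'_iff]
  intro u hu
  exact h u (mem_filter.1 hu).2

theorem mf_mono (le : α → α → Prop) (hr : ∀ x, le x x) (ht : ∀ x y z, le x y → le y z → le x z)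
    (σ : α → ℕ) (x y : α) (h : le x y) : mf le hr σ x ≤ mf le hr σ y := by
  unfold mf
  apply Finset.inf'_mono
  intro u hu
  exact mem_filter.2 ⟨mem_univ u, ht x y u h (mem_filter.1 hu).2⟩

theorem main : S_STEP := by
  intro α _ le K X hr ht h1 h2
  obtain ⟨Z, hZ⟩ : ∃ Z : α → Prop, ∀ u, Z u ↔ ∃ x, X x ∧ le x u := ⟨_, fun _ => Iff.rfl⟩
  obtain ⟨R, hR⟩ : ∃ R : α → α → Prop, ∀ u v, R u v ↔ (u ≠ v ∧ ∃ x, X x ∧ le x u ∧ le x v) :=
    ⟨_, fun _ _ => Iff.rfl⟩
  have hdeg : ∀ a, (univ.filter (fun b => R a b)).card ≤ K ^ 2 := by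
    intro a
    set A : Finset α := univ.filter (fun x => X x ∧ le x a) with hA
    have hsub : univ.filter (fun b => R a b) ⊆ A.biUnion (fun x => univ.filter (fun u => le x u)) := by
      intro b hb
      obtain ⟨-, x, hx, hxa, hxb⟩ := (hR a b).1 (mem_filter.1 hb).2
      exact mem_biUnion.2 ⟨x, mem_filter.2 ⟨mem_univ x, hx, hxa⟩, mem_filter.2 ⟨mem_univ b, hxb⟩⟩
    have hAc : A.card ≤ K := by
      rcases A.eq_empty_or_nonempty with he | ⟨x, hx⟩
      · rw [he, card_empty]
        exact Nat.zero_le K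
      · obtain ⟨-, hx1, hx2⟩ := mem_filter.1 hx
        refine (card_le_card ?_).trans (h2 x hx1 a hx2)
        intro y hy
        exact mem_filter.2 ⟨mem_univ y, (mem_filter.1 hy).2.2⟩
    calc (univ.filter (fun b => R a b)).card
        ≤ (A.biUnion (fun x => univ.filter (fun u => le x u))).card := card_le_card hsub
      _ ≤ A.card * K := card_biUnion_le_card_mul _ _ _ fun x hx => h1 x (mem_filter.1 hx).2.1
      _ ≤ K * K := Nat.mul_le_mul_right K hAc
      _ = K ^ 2 := (sq K).symm
  obtain ⟨χ, hχ⟩ := greedy R (K ^ 2) (fun a b h => by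
      obtain ⟨hne, x, hx, hxa, hxb⟩ := (hR a b).1 h
      exact (hR b a).2 ⟨hne.symm, x, hx, hxb, hxa⟩) (fun a h => ((hR a a).1 h).1 rfl) hdeg
  set N := Fintype.card α with hN
  let e : α → ℕ := fun u => ((Fintype.equivFin α) u : ℕ)
  have heN : ∀ u, e u < N := fun u => ((Fintype.equivFin α) u).isLt
  have hei : ∀ u v, e u = e v → u = v := fun u v h =>
    (Fintype.equivFin α).injective (Fin.ext h)
  refine ⟨fun i => mf le hr (sg Z χ e N (finProdFinEquiv.symm i).1 (finProdFinEquiv.symm i).2),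
    fun i x y h => mf_mono le hr ht _ x y h, ?_⟩
  rintro x y ⟨hx, hxy⟩
  suffices h : ∃ (s : Fin 2) (a : Fin (K ^ 2 + 1)),
      mf le hr (sg Z χ e N s a) y < mf le hr (sg Z χ e N s a) x by
    obtain ⟨s, a, h⟩ := h
    refine ⟨finProdFinEquiv (s, a), ?_⟩
    simpa using h
  by_cases hc : ∃ u, le y u ∧ ¬ Z u
  · obtain ⟨u, hyu, hu⟩ := hc
    refine ⟨0, χ y, lt_of_le_of_lt (mf_le le hr _ y u hyu) (lt_mf le hr _ x _ ?_)⟩
    intro v hv
    have hZv : Z v := (hZ v).2 ⟨x, hx, hv⟩
    unfold sg
    rw [if_neg hu, if_pos hZv]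
    split_ifs <;> omega
  · push Not at hc
    have hyZ : Z y := hc y (hr y)
    by_cases hu : ∃ u, le x u ∧ χ u = χ y ∧ e u < e y
    · obtain ⟨u, hxu, hcu, hlt⟩ := hu
      refine ⟨1, χ y, lt_of_le_of_lt (mf_le le hr _ y y (hr y)) (lt_mf le hr _ x _ ?_)⟩
      intro v hv
      have hZv : Z v := (hZ v).2 ⟨x, hx, hv⟩
      have hy' := heN y
      unfold sg
      rw [if_pos hyZ, if_pos rfl, if_neg (by decide), if_pos hZv]
      by_cases hcv : χ v = χ y
      · have hvu : v = u := by
          by_contra hne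
          exact hχ v u ((hR v u).2 ⟨hne, x, hx, hv, hxu⟩) (hcv.trans hcu.symm)
        subst hvu
        rw [if_pos hcv, if_neg (by decide)]
        omega
      · rw [if_neg hcv]
        omega
    · push Not at hu
      refine ⟨0, χ y, lt_of_le_of_lt (mf_le le hr _ y y (hr y)) (lt_mf le hr _ x _ ?_)⟩
      intro v hv
      have hZv : Z v := (hZ v).2 ⟨x, hx, hv⟩
      have hy' := heN y
      unfold sg
      rw [if_pos hyZ, if_pos rfl, if_pos rfl, if_pos hZv]
      by_cases hcv : χ v = χ y
      · have h3 := hu v hv hcv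
        have hne : e v ≠ e y := fun h => hxy (hei v y h ▸ hv)
        rw [if_pos hcv, if_pos rfl]
        omega
      · rw [if_neg hcv]
        omega

end

end Pool.Agent.H397.RO.Step
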